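import Pool.Agent.Lib.MP_c7e804_gt.H43OFin

namespace Pool.Agent.Variants.MP_c7e804_gt.FullConformal

open Pool.Agent.Lib.MP_c7e804_gt

/-- Every embedded constant-angle minimal annulus in the unit ball, for every contact angle
`θ ∈ (0, π)`, is foliated by closed curvature lines, each on a sphere centred on a fixed axis or
on a plane orthogonal to it. -/
theorem result (ψ : ℝ × ℝ → V3) (a b τ θ : ℝ) (h : CapAnnulus ψ a b τ θ θ)
    (he : Embedded ψ a b τ) : ∃ e : V3, e ≠ 0 ∧ FoliatedAbout ψ a b e :=
  full_main h he

end Pool.Agent.Variants.MP_c7e804_gt.FullConformal
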